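import Mathlib

/-!
# Gaps in chromatic spectra of S-signed graphs

The interval property of the chromatic spectrum of `S`-signed graphs fails, with arbitrarily long
gaps: `k` parallel edges between two vertices, `S` the group of rotations of `{1,...,k}`.
-/

namespace Pool.Agent.Results.MP_3ca1b2_co.SpectrumGaps

/-- A finite loopless graph (parallel edges allowed) with vertex set `V` and edge set `E`; each
edge is given with its two ends, in an arbitrary order. -/
structure Graph (V E : Type) where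
  /-- first end -/
  src : E → V
  /-- second end -/
  tgt : E → V
  loopless : ∀ e, src e ≠ tgt e

/-- The arcs are the pairs `(e, true)` (from the first to the second end of `e`) and `(e, false)`
(from the second to the first end); tail of an arc. -/
def Graph.tail {V E : Type} (G : Graph V E) (a : E × Bool) : V :=
  if a.2 then G.src a.1 else G.tgt a.1

/-- Head of an arc. -/
def Graph.head {V E : Type} (G : Graph V E) (a : E × Bool) : V :=
  if a.2 then G.tgt a.1 else G.src a.1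

/-- The permutations of `[k]`, as permutations of `ℕ` fixing `0` and every integer `> k`. -/
def Sym (k : ℕ) : Set (Equiv.Perm ℕ) := {p | ∀ x, (x = 0 ∨ k < x) → p x = x}

/-- `S`-signatures: labels in `S` on the arcs, opposite arcs have inverse labels. -/
def IsSignature {E : Type} (S : Set (Equiv.Perm ℕ)) (s : E × Bool → Equiv.Perm ℕ) : Prop :=
  (∀ a, s a ∈ S) ∧ ∀ e b, s (e, !b) = (s (e, b))⁻¹

/-- `j`-colourings of the signed graph `(G, s)`. -/
def IsColouring {V E : Type} (G : Graph V E) (s : E × Bool → Equiv.Perm ℕ) (j : ℕ)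
    (c : V → ℕ) : Prop :=
  (∀ v, 1 ≤ c v ∧ c v ≤ j) ∧ ∀ a, s a (c (G.tail a)) ≠ c (G.head a)

/-- `n` is the chromatic number of `(G, s)`. -/
def IsChromatic {V E : Type} (G : Graph V E) (s : E × Bool → Equiv.Perm ℕ) (n : ℕ) : Prop :=
  IsLeast {j | 1 ≤ j ∧ ∃ c, IsColouring G s j c} n

/-- The `S`-chromatic spectrum of `G`. -/
def Spectrum {V E : Type} (G : Graph V E) (S : Set (Equiv.Perm ℕ)) : Set ℕ :=
  {n | ∃ s, IsSignature S s ∧ IsChromatic G s n}

/-- the rotation of `[k]` by `d` -/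
def rot (k d : ℕ) (hd : d < k) : Equiv.Perm ℕ where
  toFun x := if 1 ≤ x ∧ x ≤ k then (if x + d ≤ k then x + d else x + d - k) else x
  invFun y := if 1 ≤ y ∧ y ≤ k then (if d < y then y - d else y + k - d) else y
  left_inv x := by
    simp only
    split_ifs <;> omega
  right_inv x := by
    simp only
    split_ifs <;> omega

theorem rot_apply (k d : ℕ) (hd : d < k) (x : ℕ) :
    rot k d hd x = if 1 ≤ x ∧ x ≤ k then (if x + d ≤ k then x + d else x + d - k) else x := rfl

theorem rot_inv_apply (k d : ℕ) (hd : d < k) (x : ℕ) :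
    (rot k d hd)⁻¹ x = if 1 ≤ x ∧ x ≤ k then (if d < x then x - d else x + k - d) else x := rfl

/-- the rotations -/
def R (k : ℕ) : Set (Equiv.Perm ℕ) := {p | ∃ (d : ℕ) (hd : d < k), p = rot k d hd}

/-- two vertices, `k` parallel edges -/
def D (k : ℕ) : Graph (Fin 2) (Fin k) where
  src _ := 0
  tgt _ := 1
  loopless _ := by decide

theorem R_sub (k : ℕ) : R k ⊆ Sym k := by
  rintro p ⟨d, hd, rfl⟩ x hx
  rw [rot_apply, if_neg (by omega)]

theorem R_inv (k : ℕ) : ∀ p ∈ R k, p⁻¹ ∈ R k := by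
  rintro p ⟨d, hd, rfl⟩
  rcases Nat.eq_zero_or_pos d with rfl | h0
  · refine ⟨0, hd, Equiv.ext fun x => ?_⟩
    rw [rot_apply, rot_inv_apply]
    split_ifs <;> omega
  · refine ⟨k - d, by omega, Equiv.ext fun x => ?_⟩
    rw [rot_apply, rot_inv_apply]
    split_ifs <;> omega

/-- extend labels on the edges to all arcs -/
def ext {E : Type} (f : E → Equiv.Perm ℕ) (a : E × Bool) : Equiv.Perm ℕ :=
  if a.2 then f a.1 else (f a.1)⁻¹

theorem ext_sig {E : Type} (k : ℕ) (f : E → Equiv.Perm ℕ) (h : ∀ e, f e ∈ R k) :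
    IsSignature (R k) (ext f) := by
  refine ⟨?_, ?_⟩
  · rintro ⟨e, b⟩
    cases b
    · simpa [ext] using R_inv k _ (h e)
    · simpa [ext] using h e
  · intro e b
    cases b <;> simp [ext]

/-- colourings of the dipole -/
theorem col_iff (k j : ℕ) (s : Fin k × Bool → Equiv.Perm ℕ) (hs : ∀ e b, s (e, !b) = (s (e, b))⁻¹)
    (c : Fin 2 → ℕ) : IsColouring (D k) s j c ↔
      (1 ≤ c 0 ∧ c 0 ≤ j) ∧ (1 ≤ c 1 ∧ c 1 ≤ j) ∧ ∀ e, s (e, true) (c 0) ≠ c 1 := by
  constructor
  · rintro ⟨h1, h2⟩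
    exact ⟨h1 0, h1 1, fun e => h2 (e, true)⟩
  · rintro ⟨h0, h1, h2⟩
    refine ⟨?_, ?_⟩
    · intro v
      fin_cases v
      · exact h0
      · exact h1
    · rintro ⟨e, b⟩
      cases b
      · intro h
        apply h2 e
        have h3 := hs e true
        simp only [Bool.not_true] at h3
        rw [h3] at h
        simp only [Graph.tail, Graph.head, D] at h
        have h4 : (s (e, true))⁻¹ (c 1) = c 0 := h
        rw [← h4]
        simp
      · exact h2 e

theorem one_mem (k : ℕ) (hk : 2 ≤ k) : 1 ∈ Spectrum (D k) (R k) := by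
  refine ⟨ext fun _ => rot k 1 (by omega), ext_sig k _ fun _ => ⟨1, by omega, rfl⟩, ?_, ?_⟩
  · refine ⟨le_refl 1, fun _ => 1, ?_⟩
    rw [col_iff _ _ _ (ext_sig k _ fun _ => ⟨1, by omega, rfl⟩).2]
    refine ⟨⟨le_refl _, le_refl _⟩, ⟨le_refl _, le_refl _⟩, fun e => ?_⟩
    simp only [ext, if_true]
    rw [rot_apply]
    split_ifs <;> omega
  · rintro j ⟨hj, -⟩
    exact hj

theorem top_mem (k : ℕ) (hk : 2 ≤ k) : k + 1 ∈ Spectrum (D k) (R k) := by
  have hsig := ext_sig k (fun e : Fin k => rot k e.1 e.2) fun e => ⟨e.1, e.2, rfl⟩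
  refine ⟨ext fun e : Fin k => rot k e.1 e.2, hsig, ?_, ?_⟩
  · refine ⟨by omega, fun v => if v = 0 then 1 else k + 1, ?_⟩
    rw [col_iff _ _ _ hsig.2]
    refine ⟨by simp, by simp, fun e => ?_⟩
    have he := e.2
    simp only [ext, if_true]
    rw [rot_apply]
    simp only [if_true, one_ne_zero, if_false]
    split_ifs <;> omega
  · rintro j ⟨hj, c, hc⟩
    rw [col_iff _ _ _ hsig.2] at hc
    obtain ⟨h0, h1, h2⟩ := hc
    by_contra hlt
    rcases le_or_gt (c 0) (c 1) with h | h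
    · apply h2 ⟨c 1 - c 0, by omega⟩
      simp only [ext, if_true]
      rw [rot_apply]
      split_ifs <;> omega
    · apply h2 ⟨c 1 + k - c 0, by omega⟩
      simp only [ext, if_true]
      rw [rot_apply]
      split_ifs <;> omega

theorem gap (k : ℕ) (hk : 2 ≤ k) (b : ℕ) (h1 : k / 2 + 1 < b) (h2 : b ≤ k) :
    b ∉ Spectrum (D k) (R k) := by
  rintro ⟨s, ⟨hS, hs⟩, ⟨hb, c, hc⟩, hmin⟩
  rw [col_iff _ _ _ hs] at hc
  obtain ⟨c0, c1, c2⟩ := hc
  have key : ∃ j, 1 ≤ j ∧ j ≤ k / 2 + 1 ∧ ∃ c', IsColouring (D k) s j c' := by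
    obtain ⟨d, hd, hdd⟩ : ∃ d, d < k ∧ ((c 0 + d ≤ k ∧ c 0 + d = c 1) ∨
        (k < c 0 + d ∧ c 0 + d - k = c 1)) := by
      rcases le_or_gt (c 0) (c 1) with h | h
      · exact ⟨c 1 - c 0, by omega, by omega⟩
      · exact ⟨c 1 + k - c 0, by omega, by omega⟩
    refine ⟨k / 2 + 1, by omega, le_refl _, ?_⟩
    have hlab : ∀ e, ∃ d', ∃ hd' : d' < k, s (e, true) = rot k d' hd' ∧ d' ≠ d := by
      intro e
      obtain ⟨d', hd', he⟩ := hS (e, true)
      refine ⟨d', hd', he, ?_⟩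
      rintro rfl
      apply c2 e
      rw [he, rot_apply]
      split_ifs <;> omega
    rcases le_or_gt d (k / 2) with h | h
    · refine ⟨fun v => if v = 0 then 1 else 1 + d, ?_⟩
      rw [col_iff _ _ _ hs]
      refine ⟨by simp, by simp; omega, fun e => ?_⟩
      obtain ⟨d', hd', he, hne⟩ := hlab e
      rw [he, rot_apply]
      simp only [if_true, one_ne_zero, if_false]
      split_ifs <;> omega
    · refine ⟨fun v => if v = 0 then k - d + 1 else 1, ?_⟩
      rw [col_iff _ _ _ hs]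
      refine ⟨by simp; omega, by simp, fun e => ?_⟩
      obtain ⟨d', hd', he, hne⟩ := hlab e
      rw [he, rot_apply]
      simp only [if_true, one_ne_zero, if_false]
      split_ifs <;> omega
  obtain ⟨j, hj1, hj2, hc'⟩ := key
  have := hmin ⟨hj1, hc'⟩
  omega

/-- The interval property fails, and gaps of the spectrum can be arbitrarily long. -/
theorem result :
    (¬ ∀ (k : ℕ) (S : Set (Equiv.Perm ℕ)), 1 ≤ k → S ⊆ Sym k → S.Nonempty →
      (∀ p ∈ S, p⁻¹ ∈ S) → ∀ (V E : Type) [Finite V] [Finite E] (G : Graph V E),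
      ∀ a b c : ℕ, a < b → b < c → a ∈ Spectrum G S → c ∈ Spectrum G S → b ∈ Spectrum G S) ∧
    ∀ k : ℕ, 2 ≤ k → ∃ S : Set (Equiv.Perm ℕ), S ⊆ Sym k ∧ S.Nonempty ∧ (∀ p ∈ S, p⁻¹ ∈ S) ∧
      ∃ G : Graph (Fin 2) (Fin k), 1 ∈ Spectrum G S ∧ k + 1 ∈ Spectrum G S ∧
        ∀ b, k / 2 + 1 < b → b ≤ k → b ∉ Spectrum G S := by
  refine ⟨?_, ?_⟩
  · intro h
    exact gap 3 (by norm_num) 3 (by norm_num) (le_refl 3)
      (h 3 (R 3) (by norm_num) (R_sub 3) ⟨_, 0, by norm_num, rfl⟩ (R_inv 3) (Fin 2) (Fin 3) (D 3)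
        1 3 4 (by norm_num) (by norm_num) (one_mem 3 (by norm_num)) (top_mem 3 (by norm_num)))
  · intro k hk
    exact ⟨R k, R_sub k, ⟨_, 0, by omega, rfl⟩, R_inv k, D k, one_mem k hk, top_mem k hk,
      gap k hk⟩

end Pool.Agent.Results.MP_3ca1b2_co.SpectrumGaps
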